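import Pool.Agent.H78.CM.VT
import Pool.Agent.H1.CM.LIM
import Pool.Agent.H1.CM.CLU
import Pool.Agent.H1.CM.LFT
import Pool.Agent.H1.CM.CNV
import Pool.Agent.H1.CM.PW
import Pool.Agent.H17.CM.ISO
import Pool.Agent.H17.CM.MIN
import Pool.Agent.H17.CM.PWA
import Pool.Agent.H54.CM.NSS
import Pool.Agent.H64.CM.BEG
import Pool.Agent.H85.CM.GRP

/-!
# MP_308708_lc: assembly of the dichotomy
-/

set_option autoImplicit false

universe u

namespace Pool.Agent.H78.CM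

theorem lim_all : T_LIM := Pool.Agent.H1.CM.LIM.X
theorem clu_all : T_CLU.{u} := Pool.Agent.H1.CM.CLU.X lim_all
theorem lft_all : T_LFT.{u} := Pool.Agent.H1.CM.LFT.X clu_all
theorem cnv_all : T_CNV.{u} := Pool.Agent.H1.CM.CNV.X clu_all
theorem min_all : T_MIN.{u} := Pool.Agent.H17.CM.X_MIN lft_all cnv_all
theorem pwa_all : T_PWA.{u} := Pool.Agent.H17.CM.X_PWA
theorem pw_all : T_PW.{u} := Pool.Agent.H1.CM.PW.X pwa_all
theorem beg_all : T_BEG.{u} := Pool.Agent.H64.CM.BEG.beg pw_all clu_all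
theorem grp_all : T_GRP.{u} := Pool.Agent.H85.CM.GRP.pf_GRP pw_all beg_all min_all
theorem vt_all : T_VT.{u} := vt grp_all Pool.Agent.H17.CM.X_ISO Pool.Agent.H54.CM.NSS.X

end Pool.Agent.H78.CM
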