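import Pool.Agent.H60.CM.Basic

/-!
# Stable cmc surfaces spanning a circle: the immersion is locally injective (row `ULI`)
-/

set_option autoImplicit false

open Set Function MeasureTheory Filter Topology
open scoped Manifold ContDiff Matrix
open Pool.Agent.H60.CM

namespace Pool.Agent.H78.CM

theorem cross_lin (a0 a1 : V3) (h : a0 ⨯₃ a1 ≠ 0) (s t : ℝ) (h0 : s • a0 + t • a1 = 0) :
    s = 0 ∧ t = 0 := by
  constructor
  · have h1 : (s • a0 + t • a1) ⨯₃ a1 = 0 := by
      rw [h0]
      simp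
    rw [map_add, LinearMap.add_apply, map_smul, map_smul, LinearMap.smul_apply,
      LinearMap.smul_apply, cross_self, smul_zero, add_zero, smul_eq_zero] at h1
    exact h1.resolve_right h
  · have h1 : a0 ⨯₃ (s • a0 + t • a1) = 0 := by
      rw [h0]
      simp
    rw [map_add, map_smul, map_smul, cross_self, smul_zero, zero_add, smul_eq_zero] at h1
    exact h1.resolve_right h

theorem ee_sum (v : E2) : v = v 0 • ee 0 + v 1 • ee 1 := by
  ext i
  fin_cases i <;> simp [ee]

theorem pf_ULI : T_ULI := by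
  intro D p
  set e := extChartAt (𝓡∂ 2) p with he
  set y := e p with hy
  set X : E2 → V3 := D.x ∘ e.symm with hX
  have hmem : e.target ∈ 𝓝[range (𝓡∂ 2)] y := extChartAt_target_mem_nhdsWithin p
  have hyt : y ∈ e.target := mem_extChartAt_target p
  have hud : UniqueDiffOn ℝ e.target := uniqueDiffOn_extChartAt_target p
  have hXc : ContDiffOn ℝ ∞ X e.target := by
    rw [← contMDiffOn_iff_contDiffOn]
    exact (D.smx.contMDiffOn (s := univ)).comp (contMDiffOn_extChartAt_symm p)
      fun _ _ => mem_univ _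
  have hXd : DifferentiableOn ℝ X e.target := hXc.differentiableOn (by simp)
  have hcont : ContinuousOn (fderivWithin ℝ X e.target) e.target :=
    hXc.continuousOn_fderivWithin hud (by simp)
  set L : E2 →L[ℝ] V3 := fderivWithin ℝ X e.target y with hL
  have hLd : ∀ i, L (ee i) = dd D.x p i := by
    intro i
    rw [dd_eq (Dat.Sm.md D D.smx p)]
    have h1 : fderivWithin ℝ X e.target y = fderivWithin ℝ X (range (𝓡∂ 2)) y := by
      have h2 : DifferentiableWithinAt ℝ X (range (𝓡∂ 2)) y :=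
        MD.diffWithin (Dat.Sm.md D D.smx p)
      exact (h2.hasFDerivWithinAt.mono (extChartAt_target_subset_range p)).fderivWithin
        (hud y hyt)
    rw [hL, h1]
  have hinj : LinearMap.ker (L : E2 →ₗ[ℝ] V3) = ⊥ := by
    rw [LinearMap.ker_eq_bot']
    intro v hv
    have h1 : v 0 • dd D.x p 0 + v 1 • dd D.x p 1 = 0 := by
      rw [← hLd, ← hLd, ← map_smul, ← map_smul, ← map_add, ← ee_sum]
      exact hv
    obtain ⟨h2, h3⟩ := cross_lin _ _ (D.cmc.imm p) _ _ h1
    rw [ee_sum v, h2, h3]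
    simp
  obtain ⟨K, hK, hKL⟩ := (L : E2 →ₗ[ℝ] V3).exists_antilipschitzWith hinj
  have hK' : (0 : ℝ) < K := by exact_mod_cast hK
  -- the neighbourhood
  have hev : ∀ᶠ z in 𝓝[range (𝓡∂ 2)] y, z ∈ e.target ∧
      ‖fderivWithin ℝ X e.target z - L‖ ≤ 1 / (2 * K) := by
    have h1 : ∀ᶠ z in 𝓝[e.target] y, ‖fderivWithin ℝ X e.target z - L‖ ≤ 1 / (2 * K) := by
      have h2 : Tendsto (fun z => ‖fderivWithin ℝ X e.target z - L‖) (𝓝[e.target] y) (𝓝 0) := by
        have h3 := (hcont y hyt).sub (continuousWithinAt_const (b := L))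
        have h4 := h3.norm
        simpa [ContinuousWithinAt, hL] using h4
      exact h2.eventually (ge_mem_nhds (by positivity))
    have h5 : 𝓝[range (𝓡∂ 2)] y ≤ 𝓝[e.target] y := by
      exact nhdsWithin_le_iff.2 hmem
    filter_upwards [hmem, h5 h1] with z hz1 hz2
    exact ⟨hz1, hz2⟩
  obtain ⟨ρ, hρ, hsub⟩ := Metric.mem_nhdsWithin_iff.1 hev
  set s : Set E2 := Metric.ball y ρ ∩ range (𝓡∂ 2) with hs
  have hsc : Convex ℝ s := (convex_ball y ρ).inter (𝓡∂ 2).convex_range
  have hst : s ⊆ e.target := fun z hz => (hsub hz).1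
  have hXinj : InjOn X s := by
    intro z hz z' hz' h
    have h1 := hsc.norm_image_sub_le_of_norm_hasFDerivWithin_le' (f := X)
      (f' := fderivWithin ℝ X e.target) (φ := L) (C := 1 / (2 * K))
      (fun w hw => ((hXd w (hst hw)).hasFDerivWithinAt).mono hst) (fun w hw => (hsub hw).2) hz hz'
    rw [h, sub_self, zero_sub, norm_neg] at h1
    have h2 := hKL.le_mul_dist z' z
    rw [dist_eq_norm, dist_eq_norm] at h2
    have h3 : ‖L (z' - z)‖ = ‖(L : E2 →ₗ[ℝ] V3) z' - (L : E2 →ₗ[ℝ] V3) z‖ := by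
      rw [map_sub]
      rfl
    rw [← h3] at h2
    have h4 : ‖z' - z‖ ≤ 1 / 2 * ‖z' - z‖ := by
      calc ‖z' - z‖ ≤ K * ‖L (z' - z)‖ := h2
        _ ≤ K * (1 / (2 * K) * ‖z' - z‖) := mul_le_mul_of_nonneg_left h1 hK'.le
        _ = 1 / 2 * ‖z' - z‖ := by field_simp
    have h5 : ‖z' - z‖ ≤ 0 := by linarith [norm_nonneg (z' - z)]
    exact (sub_eq_zero.1 (norm_le_zero_iff.1 h5)).symm
  refine ⟨e.source ∩ e ⁻¹' (Metric.ball y ρ), ?_, ⟨mem_extChartAt_source p,
    Metric.mem_ball_self hρ⟩, ?_⟩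
  · exact (continuousOn_extChartAt p).isOpen_inter_preimage (isOpen_extChartAt_source p)
      Metric.isOpen_ball
  · intro q hq q' hq' h
    have m1 : e q ∈ s := ⟨hq.2, extChartAt_target_subset_range p (e.map_source hq.1)⟩
    have m2 : e q' ∈ s := ⟨hq'.2, extChartAt_target_subset_range p (e.map_source hq'.1)⟩
    have h1 : X (e q) = X (e q') := by
      rw [hX, comp_apply, comp_apply, e.left_inv hq.1, e.left_inv hq'.1]
      exact h
    exact e.injOn hq.1 hq'.1 (hXinj m1 m2 h1)

end Pool.Agent.H78.CM
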