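import Mathlib

/-!
# MP_308708_lc: compact groups, one-parameter groups which commute with a large normal subgroup

Targets of the modules (board cm_modules).
-/

set_option autoImplicit false

open Filter Topology MeasureTheory Set

universe u

namespace Pool.Agent.H78.CM

/-- real square matrices of size `m + 1` -/
abbrev Mat (m : ℕ) := Matrix (Fin (m + 1)) (Fin (m + 1)) ℝ

/-- A closed family of subsets of a group, indexed by the reals, and multiplicative: the closed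
subgroup `{(t, k) | k ∈ T t}` of `ℝ × K`, with full projection to `ℝ`. -/
structure OneP {K : Type u} [Group K] [TopologicalSpace K] (T : ℝ → Set K) : Prop where
  closed : IsClosed {p : ℝ × K | p.2 ∈ T p.1}
  mul : ∀ s t k l, k ∈ T s → l ∈ T t → k * l ∈ T (s + t)
  inv : ∀ t k, k ∈ T t → k⁻¹ ∈ T (-t)
  ne : ∀ t, (T t).Nonempty

/-- (LIM) powers of elements near `1` -/
def T_LIM : Prop :=
  ∀ (A : Type) [NormedRing A] [NormedAlgebra ℝ A] [NormOneClass A] [CompleteSpace A]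
    (g : ℕ → A) (ν : ℕ → ℝ) (Y : A), (∀ m, 0 < ν m) → Tendsto ν atTop (𝓝 0) →
    Tendsto (fun m => (ν m)⁻¹ • (g m - 1)) atTop (𝓝 Y) → ∀ t : ℝ, 0 ≤ t →
    Tendsto (fun m => g m ^ ⌊t / ν m⌋₊) atTop (𝓝 (NormedSpace.exp (t • Y)))

/-- (CLU) limits give one-parameter groups -/
def T_CLU : Prop :=
  ∀ (K : Type u) [Group K] [TopologicalSpace K] [IsTopologicalGroup K] [CompactSpace K]
    (T : ℝ → Set K), OneP T → ∀ (A : Type) [NormedRing A] [NormedAlgebra ℝ A] [NormOneClass A]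
    [CompleteSpace A] (τ : K →* A), Continuous τ → ∀ (k : ℕ → K) (s ν : ℕ → ℝ) (s₀ : ℝ) (Y : A),
    (∀ m, k m ∈ T (s m)) → (∀ m, 0 < ν m) → Tendsto ν atTop (𝓝 0) →
    Tendsto (fun m => s m / ν m) atTop (𝓝 s₀) →
    Tendsto (fun m => (ν m)⁻¹ • (τ (k m) - 1)) atTop (𝓝 Y) →
    ∀ t : ℝ, ∃ l ∈ T (s₀ * t), τ l = NormedSpace.exp (t • Y)

/-- (LFT) lifting -/
def T_LFT : Prop :=
  ∀ (K : Type u) [Group K] [TopologicalSpace K] [IsTopologicalGroup K] [CompactSpace K]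
    (T : ℝ → Set K), OneP T → ∀ (A : Type) [NormedRing A] [NormedAlgebra ℝ A] [NormOneClass A]
    [FiniteDimensional ℝ A] (τ : K →* A), Continuous τ → (∀ k, ‖τ k‖ ≤ 1) →
    ∃ b : A, ∀ t : ℝ, ∃ l ∈ T t, τ l = NormedSpace.exp (t • b)

/-- (CNV) the set of the lifts is closed and midpoint convex -/
def T_CNV : Prop :=
  ∀ (K : Type u) [Group K] [TopologicalSpace K] [IsTopologicalGroup K] [CompactSpace K]
    (T : ℝ → Set K), OneP T → ∀ (A : Type) [NormedRing A] [NormedAlgebra ℝ A] [NormOneClass A]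
    [CompleteSpace A] (τ : K →* A), Continuous τ →
    IsClosed {b : A | ∀ t : ℝ, ∃ l ∈ T t, τ l = NormedSpace.exp (t • b)} ∧
    ∀ b b' : A, (∀ t : ℝ, ∃ l ∈ T t, τ l = NormedSpace.exp (t • b)) →
      (∀ t : ℝ, ∃ l ∈ T t, τ l = NormedSpace.exp (t • b')) →
      ∀ t : ℝ, ∃ l ∈ T t, τ l = NormedSpace.exp (t • ((1 / 2 : ℝ) • (b + b')))

/-- (MIN) the canonical lift (matrices): it commutes with everything that normalises `T` -/
def T_MIN : Prop :=
  ∀ (K : Type u) [Group K] [TopologicalSpace K] [IsTopologicalGroup K] [CompactSpace K]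
    (T : ℝ → Set K), OneP T → ∀ (m : ℕ) (τ : K →* Mat m), Continuous τ →
    (∀ k, (τ k).transpose * τ k = 1) →
    ∃ b : Mat m, OneP (fun t => {l | l ∈ T t ∧ τ l = NormedSpace.exp (t • b)}) ∧
      ∀ k : K, (∀ t, ∀ l ∈ T t, k * l * k⁻¹ ∈ T t) →
        ∀ t, ∀ l ∈ {l | l ∈ T t ∧ τ l = NormedSpace.exp (t • b)},
          k * l * k⁻¹ ∈ {l | l ∈ T t ∧ τ l = NormedSpace.exp (t • b)}

/-- (PWA) the operator of convolution with a continuous function is compact. -/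
def T_PWA : Prop :=
  ∀ (K : Type u) [Group K] [TopologicalSpace K] [IsTopologicalGroup K] [CompactSpace K]
    [T2Space K] [SecondCountableTopology K] [MeasurableSpace K] [BorelSpace K] (μ : Measure K)
    [IsProbabilityMeasure μ] [μ.IsMulLeftInvariant] (f : C(K, ℝ)),
    ∃ S : Lp ℝ 2 μ →L[ℝ] Lp ℝ 2 μ, IsCompactOperator S ∧
      (∀ h : Lp ℝ 2 μ, S h =ᵐ[μ] fun x => ∫ y, f (x⁻¹ * y) * h y ∂μ)

/-- (PW) theorem of Peter and Weyl: orthogonal representations separate the points. -/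
def T_PW : Prop :=
  ∀ (K : Type u) [Group K] [TopologicalSpace K] [IsTopologicalGroup K] [CompactSpace K]
    [T2Space K] [SecondCountableTopology K] (k : K), k ≠ 1 →
    ∃ (m : ℕ) (σ : K →* Mat m), Continuous σ ∧ (∀ g, (σ g).transpose * σ g = 1) ∧ σ k ≠ 1

/-- (BEG) the beginning: a representation with a nontrivial one-parameter group in the image. -/
def T_BEG : Prop :=
  ∀ (K : Type u) [Group K] [TopologicalSpace K] [IsTopologicalGroup K] [CompactSpace K]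
    [T2Space K] [SecondCountableTopology K], ¬ TotallyDisconnectedSpace K →
    ∃ (m : ℕ) (σ : K →* Mat m), Continuous σ ∧ (∀ g, (σ g).transpose * σ g = 1) ∧
      ∃ a : Mat m, a ≠ 0 ∧ ∀ t : ℝ, ∃ k, σ k = NormedSpace.exp (t • a)

/-- (GRP) a one-parameter group which commutes with the kernel of a representation. -/
def T_GRP : Prop :=
  ∀ (K : Type u) [Group K] [TopologicalSpace K] [IsTopologicalGroup K] [CompactSpace K]
    [T2Space K] [SecondCountableTopology K], ¬ TotallyDisconnectedSpace K →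
    ∃ (m : ℕ) (σ : K →* Mat m), Continuous σ ∧ (∀ g, (σ g).transpose * σ g = 1) ∧
      ∃ φ : ℝ → K, Continuous φ ∧ (∀ s t, φ (s + t) = φ s * φ t) ∧ (∃ t, φ t ≠ 1) ∧
        ∀ k, σ k = 1 → ∀ t, k * φ t = φ t * k

/-- (ISO) the group of the isometries of a compact metric space. -/
def T_ISO : Prop :=
  ∀ (Y : Type u) [MetricSpace Y] [CompactSpace Y], ∃ τ : TopologicalSpace (Y ≃ᵢ Y),
    @IsTopologicalGroup (Y ≃ᵢ Y) τ _ ∧ @CompactSpace (Y ≃ᵢ Y) τ ∧ @T2Space (Y ≃ᵢ Y) τ ∧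
    @SecondCountableTopology (Y ≃ᵢ Y) τ ∧
    (∀ y : Y, @Continuous (Y ≃ᵢ Y) Y τ _ fun g => g y) ∧
    (∀ U : Set (Y ≃ᵢ Y), @IsOpen _ τ U → ∀ g ∈ U, ∃ ε > 0, ∀ h : Y ≃ᵢ Y,
      (∀ y, dist (h y) (g y) < ε) → h ∈ U)

/-- (NSS) no small subgroups -/
def T_NSS : Prop :=
  ∀ (A : Type) [NormedRing A] [NormedAlgebra ℝ A] (g : A), (∀ n : ℕ, ‖g ^ n - 1‖ ≤ 1 / 2) →
    g = 1

/-- (VT) the dichotomy for compact metric spaces: either an arc of points which are fixed by the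
pointwise stabiliser of a finite set, or the group of the isometries is profinite. -/
def T_VT : Prop :=
  ∀ (Y : Type u) [MetricSpace Y] [CompactSpace Y] (D : Set Y), Dense D →
    (∃ (E : Finset Y) (p : Y) (c : ℝ → Y), (E : Set Y) ⊆ D ∧ p ∈ E ∧ Continuous c ∧ c 0 = p ∧
      (∃ t, c t ≠ p) ∧ ∀ g : Y ≃ᵢ Y, (∀ e ∈ E, g e = e) → ∀ t, g (c t) = c t) ∨
    (∃ U : ℕ → Subgroup (Y ≃ᵢ Y), (∀ n, (U n).Normal) ∧ (∀ n, (U n).FiniteIndex) ∧
      (∀ n, ∃ E : Finset Y, (E : Set Y) ⊆ D ∧ ∀ g : Y ≃ᵢ Y, (∀ e ∈ E, g e = e) → g ∈ U n) ∧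
      (∀ n, ∃ ε > 0, ∀ g : Y ≃ᵢ Y, (∀ y, dist (g y) y < ε) → g ∈ U n) ∧
      (∀ g, (∀ n, g ∈ U n) → g = 1))

end Pool.Agent.H78.CM
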