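import Pool.Agent.H78.CM.Targets

/-!
# MP_308708_lc, module VT: the dichotomy for compact metric spaces
-/

set_option autoImplicit false

open Filter Topology Set

universe u

namespace Pool.Agent.H78.CM

open scoped Matrix.Norms.L2Operator in
theorem nss_mat (h : T_NSS) (m : ℕ) (g : Mat m) (hg : ∀ n : ℕ, ‖g ^ n - 1‖ ≤ 1 / 2) : g = 1 :=
  h (Mat m) g hg

open scoped Matrix.Norms.L2Operator in
/-- a neighbourhood of `1` in which the only subgroup is trivial -/
theorem exists_nhd (h : T_NSS) (m : ℕ) : ∃ O : Set (Mat m), IsOpen O ∧ (1 : Mat m) ∈ O ∧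
    ∀ g : Mat m, (∀ n : ℕ, g ^ n ∈ O) → g = 1 := by
  refine ⟨{x | ‖x - 1‖ < 1 / 2}, ?_, ?_, ?_⟩
  · exact isOpen_lt ((continuous_id.sub continuous_const).norm) continuous_const
  · simp
  · intro g hg
    exact nss_mat h m g fun n => (hg n).le

section

variable {Y : Type u} [MetricSpace Y] [CompactSpace Y] [TopologicalSpace (Y ≃ᵢ Y)]
  [IsTopologicalGroup (Y ≃ᵢ Y)] [CompactSpace (Y ≃ᵢ Y)]

omit [IsTopologicalGroup (Y ≃ᵢ Y)] in
/-- open neighbourhoods of `1` contain the stabilisers of finite sets -/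
theorem exists_fin (hev : ∀ y : Y, Continuous fun g : Y ≃ᵢ Y => g y) {D : Set Y} (hD : Dense D)
    {O : Set (Y ≃ᵢ Y)} (hO : IsOpen O) (h1 : 1 ∈ O) :
    ∃ E : Finset Y, (E : Set Y) ⊆ D ∧ ∀ g : Y ≃ᵢ Y, (∀ e ∈ E, g e = e) → g ∈ O := by
  have hC : IsCompact Oᶜ := hO.isClosed_compl.isCompact
  have hopen : ∀ x : D, IsOpen {g : Y ≃ᵢ Y | g x ≠ x} := fun x =>
    isOpen_ne_fun (hev x) continuous_const
  have hcov : Oᶜ ⊆ ⋃ x : D, {g : Y ≃ᵢ Y | g x ≠ x} := by
    intro g hg
    rw [mem_iUnion]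
    by_contra hcon
    push Not at hcon
    have hgx : ∀ x ∈ D, g x = x := fun x hx => by
      have := hcon ⟨x, hx⟩
      simpa using this
    have : (fun y => g y) = id :=
      Continuous.ext_on hD g.continuous continuous_id (fun x hx => hgx x hx)
    have hg1 : g = 1 := IsometryEquiv.ext fun y => congrFun this y
    exact hg (by rw [hg1]; exact h1)
  obtain ⟨t, ht⟩ := hC.elim_finite_subcover _ hopen hcov
  classical
  refine ⟨t.image Subtype.val, ?_, ?_⟩
  · intro x hx
    simp only [Finset.coe_image, mem_image] at hx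
    obtain ⟨y, _, rfl⟩ := hx
    exact y.2
  · intro g hg
    by_contra hcon
    have h2 := ht hcon
    simp only [mem_iUnion] at h2
    obtain ⟨x, hx, hx2⟩ := h2
    exact hx2 (hg x (Finset.mem_image_of_mem _ hx))

end

theorem vt (hGRP : T_GRP.{u}) (hISO : T_ISO.{u}) (hNSS : T_NSS) : T_VT.{u} := by
  intro Y _ _ D hD
  obtain ⟨τ, i1, i2, i3, i4, hev, hsm⟩ := hISO Y
  by_cases htd : TotallyDisconnectedSpace (Y ≃ᵢ Y)
  · right
    obtain ⟨B, hB⟩ := (𝓝 (1 : Y ≃ᵢ Y)).exists_antitone_basis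
    have hO : ∀ n, ∃ U : OpenNormalSubgroup (Y ≃ᵢ Y), (U : Set (Y ≃ᵢ Y)) ⊆ B n := by
      intro n
      have h1 : interior (B n) ∈ 𝓝 (1 : Y ≃ᵢ Y) := interior_mem_nhds.2 (hB.1.mem_of_mem trivial)
      obtain ⟨U, hU⟩ := ProfiniteGrp.exist_openNormalSubgroup_sub_open_nhds_of_one
        isOpen_interior (mem_of_mem_nhds h1)
      exact ⟨U, hU.trans interior_subset⟩
    choose U hU using hO
    refine ⟨fun n => (U n).toSubgroup, fun n => (U n).isNormal', ?_, ?_, ?_, ?_⟩
    · intro n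
      have := Subgroup.quotient_finite_of_isOpen (U n).toSubgroup (U n).isOpen'
      exact Subgroup.finiteIndex_of_finite_quotient
    · intro n
      exact exists_fin hev hD (U n).isOpen' (U n).one_mem
    · intro n
      obtain ⟨ε, hε, h⟩ := hsm _ (U n).isOpen' 1 (U n).one_mem
      exact ⟨ε, hε, fun g hg => h g hg⟩
    · intro g hg
      by_contra hne
      have h1 : {g}ᶜ ∈ 𝓝 (1 : Y ≃ᵢ Y) := isOpen_compl_singleton.mem_nhds (Ne.symm hne)
      obtain ⟨n, -, hn⟩ := hB.1.mem_iff.1 h1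
      exact hn (hU n (hg n)) rfl
  · left
    obtain ⟨m, σ, hσ, -, φ, hφ, hφadd, ⟨t, ht⟩, hcomm⟩ := hGRP (Y ≃ᵢ Y) htd
    obtain ⟨O, hO, hO1, hO2⟩ := exists_nhd hNSS m
    obtain ⟨E0, hE0, hE0'⟩ := exists_fin hev hD (hO.preimage hσ)
      (by show σ 1 ∈ O; rw [map_one]; exact hO1)
    have hker : ∀ g : Y ≃ᵢ Y, (∀ e ∈ E0, g e = e) → σ g = 1 := by
      intro g hg
      apply hO2
      intro n
      rw [← map_pow]
      apply hE0'
      intro e he
      induction n with
      | zero => rfl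
      | succ n ih => rw [pow_succ]; show (g ^ n) (g e) = e; rw [hg e he, ih]
    have hφ0 : φ 0 = 1 := by
      have := hφadd 0 0
      rw [add_zero] at this
      exact (left_eq_mul.1 this)
    obtain ⟨p, hpD, hp⟩ : ∃ p ∈ D, φ t p ≠ p := by
      by_contra hcon
      push Not at hcon
      have : (fun y => φ t y) = id :=
        Continuous.ext_on hD (φ t).continuous continuous_id (fun x hx => hcon x hx)
      exact ht (IsometryEquiv.ext fun y => congrFun this y)
    classical
    refine ⟨insert p E0, p, fun s => φ s p, ?_, Finset.mem_insert_self _ _,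
      (hev p).comp hφ, ?_, ⟨t, hp⟩, ?_⟩
    · rw [Finset.coe_insert]
      exact insert_subset hpD hE0
    · show φ 0 p = p
      rw [hφ0]; rfl
    · intro g hg s
      have h1 := hcomm g (hker g fun e he => hg e (Finset.mem_insert_of_mem he)) s
      have h2 : (g * φ s) p = (φ s * g) p := by rw [h1]
      have h3 : g p = p := hg p (Finset.mem_insert_self _ _)
      show g (φ s p) = φ s p
      calc g (φ s p) = (g * φ s) p := rfl
        _ = (φ s * g) p := h2
        _ = φ s (g p) := rfl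
        _ = φ s p := by rw [h3]

end Pool.Agent.H78.CM
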